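import Mathlib
import Pool.Agent.R127.SatSearch

/-!
Induced saturation numbers in hypergrids are not monotone, neither in the dimension (not even for
Boolean lattices) nor in the side length.
-/

namespace Pool.Agent.Results.MP_8c6834_co.NotMonotone

open Pool.Agent.R127.SatSearch

/-- `sat⋆([t]^n, P)`: the least size of an induced `P`-saturated family in the hypergrid `[t]^n`, the
set of functions `Fin n → Fin t` with the coordinatewise order. -/
noncomputable def satStar (P : Type) [PartialOrder P] (n t : ℕ) : ℕ :=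
  sInf {k | ∃ F : Finset (Fin n → Fin t), IsSaturated P (F : Set (Fin n → Fin t)) ∧ F.card = k}

/-- in a finite poset there is a saturated family -/
theorem exists_saturated (P : Type) [PartialOrder P] [Nonempty P] (G : Type) [PartialOrder G]
    [Fintype G] [DecidableEq G] : ∃ F : Finset G, IsSaturated P (F : Set G) := by
  classical
  obtain ⟨F, hF, hmax⟩ := Finset.exists_max_image
    (Finset.univ.filter fun F : Finset G => ¬ HasCopy P (F : Set G)) Finset.card
    ⟨∅, by
      simp only [Finset.mem_filter, Finset.mem_univ, true_and]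
      rintro ⟨φ, hφ⟩
      obtain ⟨p⟩ := ‹Nonempty P›
      simpa using hφ p⟩
  simp only [Finset.mem_filter, Finset.mem_univ, true_and] at hF hmax
  refine ⟨F, hF, fun f hf => ?_⟩
  by_contra hc
  have hf' : f ∉ F := by simpa using hf
  have := hmax (insert f F) (by rwa [Finset.coe_insert])
  rw [Finset.card_insert_of_notMem hf'] at this
  omega

/-- lower bound for the saturation number from a lower bound for all saturated families -/
theorem le_satStar (P : Type) [PartialOrder P] [Nonempty P] (n t s : ℕ)
    (h : ∀ F : Finset (Fin n → Fin t), IsSaturated P (F : Set (Fin n → Fin t)) → s ≤ F.card) :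
    s ≤ satStar P n t := by
  have hne : {k | ∃ F : Finset (Fin n → Fin t), IsSaturated P (F : Set (Fin n → Fin t)) ∧
      F.card = k}.Nonempty := by
    obtain ⟨F, hF⟩ := exists_saturated P (Fin n → Fin t)
    exact ⟨F.card, F, hF, rfl⟩
  obtain ⟨F, hF, hk⟩ := Nat.sInf_mem hne
  have := h F hF
  unfold satStar
  omega

theorem satStar_le (P : Type) [PartialOrder P] (n t s : ℕ) (F : Finset (Fin n → Fin t))
    (hF : IsSaturated P (F : Set (Fin n → Fin t))) (hs : F.card ≤ s) : satStar P n t ≤ s :=
  le_trans (Nat.sInf_le ⟨F, hF, rfl⟩) hs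

/-! ### the private-copy argument -/

section priv

variable {G P : Type} [PartialOrder G] [PartialOrder P] {N m : ℕ} {le rel : ℕ → ℕ → Bool}

/-- Many points outside a saturated family give copies with private points. -/
theorem exists_masks [Fintype G] [DecidableEq G] (M : Model G N le) (Q : Model P m rel)
    (L : List ℕ)
    (hs : search le rel (fun l => !(L.contains (mask l))) (List.range N) m [] = false)
    (F : Finset G) (hF : IsSaturated P (F : Set G)) (r : ℕ)
    (hr : r + F.card ≤ Fintype.card G) :
    ∃ (x a : Fin r → ℕ), (∀ i, a i ∈ L) ∧ ∀ i j, (a i).testBit (x j) = true ↔ i = j := by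
  have hc : r ≤ (Finset.univ \ F).card := by
    rw [Finset.card_sdiff_of_subset (Finset.subset_univ F), Finset.card_univ]
    omega
  obtain ⟨f⟩ : Nonempty (Fin r ↪ {g : G // g ∈ Finset.univ \ F}) := by
    apply Function.Embedding.nonempty_of_card_le
    rw [Fintype.card_fin, Fintype.card_coe]
    exact hc
  have hx : ∀ i, (f i : G) ∉ (F : Set G) := by
    intro i
    have h := (Finset.mem_sdiff.mp (f i).2).2
    exact fun h' => h (Finset.mem_coe.mp h')
  choose φ h1 h2 using fun i => exists_private hF (hx i)
  refine ⟨fun i => M.num (f i), fun i => mask (preList (imgs M Q (φ i)) m),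
    fun i => mask_mem M Q (φ i) L hs, ?_⟩
  intro i j
  simp only []
  rw [testBit_mask, mem_preList_imgs]
  constructor
  · intro h
    have := h2 i _ h (hx j)
    exact (f.injective (Subtype.ext this)).symm
  · rintro rfl
    exact h1 i

/-- no four masks with private points -/
def noFour (L : List ℕ) : Bool :=
  L.all fun a => L.all fun b => L.all fun c => L.all fun d =>
    !(priv a (b ||| (c ||| d)) && (priv b (a ||| (c ||| d)) && (priv c (a ||| (b ||| d)) &&
      priv d (a ||| (b ||| c)))))

/-- no three masks with private points -/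
def noThree (L : List ℕ) : Bool :=
  L.all fun a => L.all fun b => L.all fun c =>
    !(priv a (b ||| c) && (priv b (a ||| c) && priv c (a ||| b)))

theorem noFour_spec (L : List ℕ) (h : noFour L = true) (x a : Fin 4 → ℕ) (ha : ∀ i, a i ∈ L)
    (hx : ∀ i j, (a i).testBit (x j) = true ↔ i = j) : False := by
  have hf : ∀ i j, i ≠ j → (a i).testBit (x j) = false := fun i j hij => by
    rw [← Bool.not_eq_true, hx]; exact hij
  have ht : ∀ i, (a i).testBit (x i) = true := fun i => (hx i i).mpr rfl
  simp only [noFour, List.all_eq_true] at h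
  have := h _ (ha 0) _ (ha 1) _ (ha 2) _ (ha 3)
  rw [Bool.not_eq_true'] at this
  have p0 : priv (a 0) (a 1 ||| (a 2 ||| a 3)) = true := priv_of _ _ (x 0) (ht 0) (by
    simp [Nat.testBit_or, hf 1 0 (by decide), hf 2 0 (by decide), hf 3 0 (by decide)])
  have p1 : priv (a 1) (a 0 ||| (a 2 ||| a 3)) = true := priv_of _ _ (x 1) (ht 1) (by
    simp [Nat.testBit_or, hf 0 1 (by decide), hf 2 1 (by decide), hf 3 1 (by decide)])
  have p2 : priv (a 2) (a 0 ||| (a 1 ||| a 3)) = true := priv_of _ _ (x 2) (ht 2) (by
    simp [Nat.testBit_or, hf 1 2 (by decide), hf 0 2 (by decide), hf 3 2 (by decide)])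
  have p3 : priv (a 3) (a 0 ||| (a 1 ||| a 2)) = true := priv_of _ _ (x 3) (ht 3) (by
    simp [Nat.testBit_or, hf 1 3 (by decide), hf 2 3 (by decide), hf 0 3 (by decide)])
  rw [p0, p1, p2, p3] at this
  simp at this

theorem noThree_spec (L : List ℕ) (h : noThree L = true) (x a : Fin 3 → ℕ) (ha : ∀ i, a i ∈ L)
    (hx : ∀ i j, (a i).testBit (x j) = true ↔ i = j) : False := by
  have hf : ∀ i j, i ≠ j → (a i).testBit (x j) = false := fun i j hij => by
    rw [← Bool.not_eq_true, hx]; exact hij
  have ht : ∀ i, (a i).testBit (x i) = true := fun i => (hx i i).mpr rfl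
  simp only [noThree, List.all_eq_true] at h
  have := h _ (ha 0) _ (ha 1) _ (ha 2)
  rw [Bool.not_eq_true'] at this
  have p0 : priv (a 0) (a 1 ||| a 2) = true := priv_of _ _ (x 0) (ht 0) (by
    simp [Nat.testBit_or, hf 1 0 (by decide), hf 2 0 (by decide)])
  have p1 : priv (a 1) (a 0 ||| a 2) = true := priv_of _ _ (x 1) (ht 1) (by
    simp [Nat.testBit_or, hf 0 1 (by decide), hf 2 1 (by decide)])
  have p2 : priv (a 2) (a 0 ||| a 1) = true := priv_of _ _ (x 2) (ht 2) (by
    simp [Nat.testBit_or, hf 1 2 (by decide), hf 0 2 (by decide)])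
  rw [p0, p1, p2] at this
  simp at this

/-- A family given by numbers, with a table of copies, is saturated. -/
theorem saturated_of_table (M : Model G N le) (Q : Model P m rel) (W : List ℕ)
    (tab : ℕ → List ℕ)
    (hs : search le rel (fun _ => true) W m [] = false)
    (hN : ∀ x < N, x ∈ W ∨ (goodList m le rel (tab x) = true ∧
      ∀ i < m, (tab x).getD i 0 < N ∧ ((tab x).getD i 0 ∈ W ∨ (tab x).getD i 0 = x))) :
    IsSaturated P {g : G | M.num g ∈ W} := by
  refine ⟨not_hasCopy M Q _ W (fun g hg => hg) hs, ?_⟩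
  intro f hf
  have hf' : M.num f ∉ W := hf
  rcases hN _ (M.num_lt f) with h | ⟨h1, h2⟩
  · exact absurd h hf'
  · refine hasCopy_of_list M Q _ (tab (M.num f)) (fun i hi => (h2 i hi).1) h1 ?_
    intro i hi h
    rcases (h2 i hi).2 with h3 | h3
    · refine Or.inr ?_
      show M.num _ ∈ W
      rw [M.num_e]
      exact h3
    · refine Or.inl ?_
      apply M.num_inj
      rw [M.num_e]
      exact h3

end priv

/-! ### the first poset: `0, 1, 2 < 3`, `0 < 4`, and an isolated point `5` -/

/-- the order relation of the first poset -/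
def rel1 (i j : ℕ) : Bool :=
  i == j || (i == 0 && j == 3) || (i == 0 && j == 4) || (i == 1 && j == 3) || (i == 2 && j == 3)

/-- The first poset, on the points `0, ..., 5`: `0, 1, 2 < 3` and `0 < 4`; `5` is isolated. -/
structure P1 : Type where
  /-- the point -/
  val : Fin 6

/-- the order of the first poset -/
instance P1.instPartialOrder : PartialOrder P1 where
  le a b := rel1 a.val b.val = true
  le_refl a := by
    obtain ⟨a⟩ := a
    revert a
    decide
  le_trans a b c := by
    obtain ⟨a⟩ := a
    obtain ⟨b⟩ := b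
    obtain ⟨c⟩ := c
    revert a b c
    decide
  le_antisymm a b h1 h2 := by
    obtain ⟨a⟩ := a
    obtain ⟨b⟩ := b
    congr 1
    revert a b
    decide

/-- the points of the first poset -/
def P1.equiv : Fin 6 ≃ P1 := ⟨P1.mk, P1.val, fun _ => rfl, fun _ => rfl⟩

/-- the model of the first poset -/
def P1.model : Model P1 6 rel1 := ⟨P1.equiv, fun _ _ => Iff.rfl⟩

/-- inclusion of bit masks -/
def leB (a b : ℕ) : Bool := (a &&& b) == a

/-- the model of the Boolean lattice with `n` atoms -/
def modelB4 : Model (Fin 4 → Fin 2) (2 ^ 4) leB where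
  e := finFunctionFinEquiv.symm
  h := by
    intro a b
    rw [Pi.le_def]
    revert a b
    decide +kernel

/-- the model of the Boolean lattice with `n` atoms -/
def modelB5 : Model (Fin 5 → Fin 2) (2 ^ 5) leB where
  e := finFunctionFinEquiv.symm
  h := by
    intro a b
    rw [Pi.le_def]
    revert a b
    decide +kernel

/-- the masks of the copies of the first poset in the Boolean lattice with four atoms -/
def masks1 : List ℕ :=
  [6376, 7816, 9448, 11848, 13984, 14944, 17128, 20008, 22208, 23648, 29224, 29768]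

theorem lower1 (F : Finset (Fin 4 → Fin 2)) (hF : IsSaturated P1 (F : Set (Fin 4 → Fin 2))) :
    13 ≤ F.card := by
  by_contra hc
  obtain ⟨x, a, ha, hx⟩ := exists_masks modelB4 P1.model masks1 (by decide +kernel) F hF 4 (by
    have : Fintype.card (Fin 4 → Fin 2) = 16 := by simp
    omega)
  exact noFour_spec masks1 (by decide +kernel) x a ha hx

/-- the small saturated family in the Boolean lattice with five atoms -/
def W1 : List ℕ := [0, 1, 2, 3, 11, 12, 15, 19, 20, 23, 24, 31]

/-- copies of the first poset -/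
def tab1 : List (List ℕ) :=
  [[], [], [], [], [4, 1, 2, 15, 20, 24], [2, 12, 5, 15, 19, 20], [1, 12, 6, 15, 19, 20],
   [7, 11, 12, 15, 23, 24], [8, 1, 2, 11, 12, 20], [1, 2, 20, 23, 9, 12], [1, 12, 10, 15, 19, 20],
   [], [], [1, 2, 20, 23, 13, 24], [2, 1, 20, 23, 14, 24], [], [16, 1, 2, 19, 20, 12],
   [1, 2, 12, 15, 17, 20], [1, 20, 18, 23, 11, 12], [], [], [1, 2, 12, 15, 21, 24],
   [2, 1, 12, 15, 22, 24], [], [], [1, 2, 12, 15, 25, 20], [2, 1, 12, 15, 26, 20],
   [11, 19, 24, 27, 15, 20], [12, 20, 24, 28, 15, 19], [12, 20, 24, 29, 15, 19],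
   [12, 20, 24, 30, 15, 19], []]

/-- the family with the given numbers -/
def fam {n t : ℕ} (W : List ℕ) : Finset (Fin n → Fin t) :=
  Finset.univ.filter fun f => (finFunctionFinEquiv f : ℕ) ∈ W

theorem upper1 : satStar P1 5 2 ≤ 12 := by
  refine satStar_le P1 5 2 12 (fam W1) ?_ ?_
  · have := saturated_of_table modelB5 P1.model W1 (fun x => tab1.getD x []) (by decide +kernel)
      (by decide +kernel)
    have he : ((fam W1 : Finset (Fin 5 → Fin 2)) : Set (Fin 5 → Fin 2)) =
        {g | modelB5.num g ∈ W1} := by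
      ext g
      simp [fam, Model.num, modelB5]
    rw [he]
    exact this
  · have : (fam W1 : Finset (Fin 5 → Fin 2)).card ≤ 12 := by decide +kernel
    exact this

theorem copy1 : HasCopy P1 (Set.univ : Set (Fin 4 → Fin 2)) :=
  hasCopy_of_list modelB4 P1.model _ [3, 5, 6, 7, 11, 12] (by decide +kernel) (by decide +kernel)
    (fun _ _ _ => trivial)

/-! ### the second poset: `0 < 2, 3, 4`, `1 < 2, 3, 4, 5` and `2 < 3` -/

/-- the order relation of the second poset -/
def rel2 (i j : ℕ) : Bool :=
  i == j || (i == 0 && (j == 2 || j == 3 || j == 4)) ||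
    (i == 1 && (j == 2 || j == 3 || j == 4 || j == 5)) || (i == 2 && j == 3)

/-- The second poset, on the points `0, ..., 5`: `0 < 2, 3, 4`, `1 < 2, 3, 4, 5` and `2 < 3`. -/
structure P2 : Type where
  /-- the point -/
  val : Fin 6

/-- the order of the second poset -/
instance P2.instPartialOrder : PartialOrder P2 where
  le a b := rel2 a.val b.val = true
  le_refl a := by
    obtain ⟨a⟩ := a
    revert a
    decide
  le_trans a b c := by
    obtain ⟨a⟩ := a
    obtain ⟨b⟩ := b
    obtain ⟨c⟩ := c
    revert a b c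
    decide
  le_antisymm a b h1 h2 := by
    obtain ⟨a⟩ := a
    obtain ⟨b⟩ := b
    congr 1
    revert a b
    decide

/-- the points of the second poset -/
def P2.equiv : Fin 6 ≃ P2 := ⟨P2.mk, P2.val, fun _ => rfl, fun _ => rfl⟩

/-- the model of the second poset -/
def P2.model : Model P2 6 rel2 := ⟨P2.equiv, fun _ _ => Iff.rfl⟩

/-- the order of the grid `[t]^2`, with the number `x + t * y` for the point `(x, y)` -/
def leG (t a b : ℕ) : Bool := Nat.ble (a % t) (b % t) && Nat.ble (a / t) (b / t)

/-- the model of `[4]^2` -/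
def modelG4 : Model (Fin 2 → Fin 4) (4 ^ 2) (leG 4) where
  e := finFunctionFinEquiv.symm
  h := by
    intro a b
    rw [Pi.le_def]
    revert a b
    decide +kernel

/-- the model of `[5]^2` -/
def modelG5 : Model (Fin 2 → Fin 5) (5 ^ 2) (leG 5) where
  e := finFunctionFinEquiv.symm
  h := by
    intro a b
    rw [Pi.le_def]
    revert a b
    decide +kernel

/-- the masks of the copies of the second poset in `[4]^2` -/
def masks2 : List ℕ := [4818, 5778, 8794, 9306]

theorem lower2 (F : Finset (Fin 2 → Fin 4)) (hF : IsSaturated P2 (F : Set (Fin 2 → Fin 4))) :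
    14 ≤ F.card := by
  by_contra hc
  obtain ⟨x, a, ha, hx⟩ := exists_masks modelG4 P2.model masks2 (by decide +kernel) F hF 3 (by
    have : Fintype.card (Fin 2 → Fin 4) = 16 := by simp
    omega)
  exact noThree_spec masks2 (by decide +kernel) x a ha hx

/-- the small saturated family in `[5]^2` -/
def W2 : List ℕ := [0, 1, 3, 5, 6, 9, 12, 15, 18, 19, 21, 23, 24]

/-- copies of the second poset -/
def tab2 : List (List ℕ) :=
  [[], [], [2, 5, 12, 18, 9, 21], [], [5, 1, 12, 18, 21, 4], [], [], [5, 1, 7, 12, 21, 3],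
   [1, 5, 8, 9, 12, 15], [], [10, 1, 12, 18, 21, 9], [1, 5, 11, 12, 9, 15], [],
   [1, 5, 12, 13, 9, 15], [3, 5, 9, 14, 18, 21], [], [5, 1, 16, 21, 12, 3], [5, 1, 12, 17, 21, 3],
   [], [], [1, 5, 12, 18, 9, 20], [], [15, 1, 21, 22, 18, 9], [], []]

theorem upper2 : satStar P2 2 5 ≤ 13 := by
  refine satStar_le P2 2 5 13 (fam W2) ?_ ?_
  · have := saturated_of_table modelG5 P2.model W2 (fun x => tab2.getD x []) (by decide +kernel)
      (by decide +kernel)
    have he : ((fam W2 : Finset (Fin 2 → Fin 5)) : Set (Fin 2 → Fin 5)) =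
        {g | modelG5.num g ∈ W2} := by
      ext g
      simp [fam, Model.num, modelG5]
    rw [he]
    exact this
  · have : (fam W2 : Finset (Fin 2 → Fin 5)).card ≤ 13 := by decide +kernel
    exact this

theorem copy2 : HasCopy P2 (Set.univ : Set (Fin 2 → Fin 4)) :=
  hasCopy_of_list modelG4 P2.model _ [1, 4, 6, 7, 9, 12] (by decide +kernel) (by decide +kernel)
    (fun _ _ _ => trivial)

/-- The induced saturation number `sat⋆([t]^n, P)` is monotone neither in `n` nor in `t`: there are
finite posets `P` with `sat⋆([2]^5, P) < sat⋆([2]^4, P)` (Boolean lattices), and with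
`sat⋆([5]^2, P) < sat⋆([4]^2, P)`, where in both cases the smaller hypergrid contains an induced copy
of `P`. -/
theorem result :
    (∃ (P : Type) (_ : PartialOrder P) (_ : Finite P),
      HasCopy P (Set.univ : Set (Fin 4 → Fin 2)) ∧ satStar P 5 2 < satStar P 4 2) ∧
    (∃ (P : Type) (_ : PartialOrder P) (_ : Finite P),
      HasCopy P (Set.univ : Set (Fin 2 → Fin 4)) ∧ satStar P 2 5 < satStar P 2 4) := by
  have : Nonempty P1 := ⟨⟨0⟩⟩
  have : Nonempty P2 := ⟨⟨0⟩⟩
  refine ⟨⟨P1, inferInstance, Finite.of_equiv _ P1.equiv, copy1, ?_⟩,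
    ⟨P2, inferInstance, Finite.of_equiv _ P2.equiv, copy2, ?_⟩⟩
  · exact lt_of_le_of_lt upper1 (lt_of_lt_of_le (by norm_num) (le_satStar P1 4 2 13 lower1))
  · exact lt_of_le_of_lt upper2 (lt_of_lt_of_le (by norm_num) (le_satStar P2 2 4 14 lower2))

end Pool.Agent.Results.MP_8c6834_co.NotMonotone
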